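import Mathlib
import Pool.Agent.W472.AC.RothThm

/-!
# Algebraic relations between the digits of algebraic numbers

Let `D(X) = a_1 X + ⋯ + a_L X^L`, where the `a_i` are the digits of a real number in base `b`.
Counting coefficients, there are always relations `h_0 M_0 + ⋯ + h_m M_m ≡ 0 mod X^(L+1)` between
`m + 1` given monomials `M_j` in the digit polynomials `D_1, …, D_n` of `n` numbers, with
polynomials `h_j`, not all zero, of degree at most `L / (m + 1) + 1`.

* For an algebraic number of degree `r + 1` there are no relations of degree `≤ r` in `D` with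
  coefficients of smaller degree, asymptotically; this holds in all bases at once.
* There are no linear relations with coefficients of degree smaller than `L / 2`, asymptotically,
  for any irrational algebraic number: the linear complexity of its digits is maximal.
* The same holds for all monomials in elements `x_1, …, x_n` of a real number field which form a
  basis of the field (for instance `√2, √3` and the monomials `1, D_1, D_2, D_1 D_2`).
-/

set_option autoImplicit false

namespace Pool.Agent.Results.MP_f2f914_nt.AlgebraicComplexity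

open Finset Polynomial Module

/-- the `i`-th digit of `x` after the point in base `b` -/
noncomputable def digit (b : ℕ) (x : ℝ) (i : ℕ) : ℤ := ⌊x * (b : ℝ) ^ i⌋ % (b : ℤ)

/-- the polynomial `a_1 X + a_2 X^2 + ⋯ + a_L X^L`, where `a_i` is the `i`-th digit of `x` after
the point in base `b` -/
noncomputable def digitPoly (b : ℕ) (x : ℝ) (L : ℕ) : ℚ[X] :=
  ∑ i ∈ Icc 1 L, C (digit b x i : ℚ) * X ^ i

/-- there is a nonzero polynomial `P` in `Y` of degree `≤ r` whose coefficients are polynomials in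
`X` over `ℚ` of degree `≤ k` with `P(X, a_1 X + ⋯ + a_L X^L)` divisible by `X^(L+1)` -/
def AlgRelation (b : ℕ) (x : ℝ) (r L k : ℕ) : Prop :=
  ∃ P : ℚ[X][X], P ≠ 0 ∧ P.natDegree ≤ r ∧ (∀ j, (P.coeff j).natDegree ≤ k) ∧
    X ^ (L + 1) ∣ P.eval (digitPoly b x L)

/-- the algebraic complexity of degree `r` of the first `L` digits of `x` in base `b`: the least
`k` for which there is a relation -/
noncomputable def algComplexity (b : ℕ) (x : ℝ) (r L : ℕ) : ℕ := sInf {k | AlgRelation b x r L k}

/-- there are polynomials `h_0, …, h_m` over `ℚ` of degree `≤ k`, not all zero, such that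
`∑_j h_j ∏_i D_i ^ (E j i)` is divisible by `X^(L+1)`, where `D_i = a_1 X + ⋯ + a_L X^L` is formed
with the base `b` digits of `x_i` -/
def MonRelation (b : ℕ) {n m : ℕ} (x : Fin n → ℝ) (E : Fin (m + 1) → Fin n → ℕ) (L k : ℕ) : Prop :=
  ∃ h : Fin (m + 1) → ℚ[X], h ≠ 0 ∧ (∀ j, (h j).natDegree ≤ k) ∧
    X ^ (L + 1) ∣ ∑ j, h j * ∏ i, digitPoly b (x i) L ^ E j i

/-- the least `k` for which there is such a relation between the monomials with exponents `E j`
in the digit polynomials of `x_1, …, x_n` -/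
noncomputable def monComplexity (b : ℕ) {n m : ℕ} (x : Fin n → ℝ) (E : Fin (m + 1) → Fin n → ℕ)
    (L : ℕ) : ℕ := sInf {k | MonRelation b x E L k}

/-- (1) For every real algebraic number `α` of degree `r + 1` the algebraic complexity of degree
`r` of the first `L` digits of `α` is `L / (r + 1) + o(L)`, uniformly in the base.
(2) For every irrational real algebraic number `α` the algebraic complexity of degree `1` (the
linear complexity over `ℚ`) of the first `L` digits of `α` is `L / 2 + o(L)`, uniformly in the base.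
(3) Let `K` be a real number field of degree `d` and `x_1, …, x_n ∈ K`.  If the `m + 1` monomials
with exponents `E j` in the fractional parts of the `x_i` are linearly independent over `ℚ`, then
the complexity of the first `L` digits of `x_1, …, x_n` with respect to these monomials lies
between `(1 / d - o(1)) L` and `(1 / (m + 1) + o(1)) L`, uniformly in the base.
(4) So it is `L / d + o(L)` if they form a basis of `K`. -/
theorem result :
    (∀ (α : ℝ) (r : ℕ), (minpoly ℚ α).natDegree = r + 1 →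
      ∀ ε : ℝ, 0 < ε → ∃ L₀ : ℕ, ∀ L : ℕ, L₀ ≤ L → ∀ b : ℕ, 2 ≤ b →
        |(algComplexity b α r L : ℝ) - L / (r + 1)| < ε * L) ∧
    (∀ α : ℝ, IsAlgebraic ℚ α → Irrational α →
      ∀ ε : ℝ, 0 < ε → ∃ L₀ : ℕ, ∀ L : ℕ, L₀ ≤ L → ∀ b : ℕ, 2 ≤ b →
        |(algComplexity b α 1 L : ℝ) - L / 2| < ε * L) ∧
    (∀ (K : IntermediateField ℚ ℝ) [FiniteDimensional ℚ K] (n m : ℕ) (x : Fin n → ℝ)
      (E : Fin (m + 1) → Fin n → ℕ), (∀ i, x i ∈ K) →
      LinearIndependent ℚ (fun j => ∏ i, Int.fract (x i) ^ E j i) →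
      ∀ ε : ℝ, 0 < ε → ∃ L₀ : ℕ, ∀ L : ℕ, L₀ ≤ L → ∀ b : ℕ, 2 ≤ b →
        (1 / (finrank ℚ K : ℝ) - ε) * L < monComplexity b x E L ∧
          (monComplexity b x E L : ℝ) < (1 / ((m : ℝ) + 1) + ε) * L) ∧
    (∀ (K : IntermediateField ℚ ℝ) [FiniteDimensional ℚ K] (n m : ℕ) (x : Fin n → ℝ)
      (E : Fin (m + 1) → Fin n → ℕ), (∀ i, x i ∈ K) →
      LinearIndependent ℚ (fun j => ∏ i, Int.fract (x i) ^ E j i) → finrank ℚ K = m + 1 →
      ∀ ε : ℝ, 0 < ε → ∃ L₀ : ℕ, ∀ L : ℕ, L₀ ≤ L → ∀ b : ℕ, 2 ≤ b →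
        |(monComplexity b x E L : ℝ) - L / (m + 1)| < ε * L) := by
  refine ⟨fun α r hα ε hε => ?_, fun α hα hirr ε hε => ?_, fun K _ n m x E hxK hli ε hε =>
    Pool.Agent.W472.AC.mon_field K x hxK E hli ε hε, fun K _ n m x E hxK hli hfin ε hε => ?_⟩
  · obtain ⟨L₀, h⟩ := Pool.Agent.W472.AC.alg_two_sided α r
      (fun η hη => Pool.Agent.W472.AC.alg_measP α r hα η hη) ε hε
    refine ⟨L₀, fun L hL b hb => ?_⟩
    have h2 : (1 / ((r : ℝ) + 1) - ε) * L < algComplexity b α r L ∧
        (algComplexity b α r L : ℝ) < (1 / ((r : ℝ) + 1) + ε) * L := h L hL b hb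
    have e : (L : ℝ) / (r + 1) = 1 / ((r : ℝ) + 1) * L := by ring
    rw [abs_lt, e]
    constructor <;> linarith [h2.1, h2.2]
  · obtain ⟨L₀, h⟩ := Pool.Agent.W472.AC.alg_two_sided α 1
      (fun η hη => Pool.Agent.W472.AC.roth_measP α hα hirr η hη) ε hε
    refine ⟨L₀, fun L hL b hb => ?_⟩
    have h2 : (1 / (((1 : ℕ) : ℝ) + 1) - ε) * L < algComplexity b α 1 L ∧
        (algComplexity b α 1 L : ℝ) < (1 / (((1 : ℕ) : ℝ) + 1) + ε) * L := h L hL b hb
    have e : (1 : ℝ) / (((1 : ℕ) : ℝ) + 1) = 1 / 2 := by norm_num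
    rw [e] at h2
    have e2 : (L : ℝ) / 2 = 1 / 2 * L := by ring
    rw [abs_lt, e2]
    constructor <;> linarith [h2.1, h2.2]
  · obtain ⟨L₀, h⟩ := Pool.Agent.W472.AC.mon_field K x hxK E hli ε hε
    refine ⟨L₀, fun L hL b hb => ?_⟩
    have h2 : (1 / (finrank ℚ K : ℝ) - ε) * L < monComplexity b x E L ∧
        (monComplexity b x E L : ℝ) < (1 / ((m : ℝ) + 1) + ε) * L := h L hL b hb
    have hf : (finrank ℚ K : ℝ) = m + 1 := by rw [hfin]; push_cast; ring
    rw [hf] at h2
    have e : (L : ℝ) / (m + 1) = 1 / ((m : ℝ) + 1) * L := by ring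
    rw [abs_lt, e]
    constructor <;> linarith [h2.1, h2.2]

end Pool.Agent.Results.MP_f2f914_nt.AlgebraicComplexity
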