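import Pool.Agent.W44.ExpTwoAll

/-!
Lower bound `c (log N)^2 / (log log N)^3`, for ALL real algebraic irrational numbers and ALL
integer bases, for the number of failures of a nontrivial integer linear relation between
consecutive digits (in particular for the number of digit changes), and for the number of nonzero
digits of every expansion with bounded integer digits.
-/

set_option autoImplicit false

namespace Pool.Agent.Results.MP_f2f914_nt.AllAlgebraicDigitRelations

open Finset

/-- the `k`-th digit after the point of `x` in base `b` -/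
noncomputable def digit (b : ℕ) (x : ℝ) (k : ℕ) : ℤ := ⌊(b : ℝ) ^ k * x⌋ % b

/-- Let `x` be a real algebraic irrational number and `b ≥ 2`. Every relation
`q_0 a_k + … + q_m a_{k+m} = e` with fixed integer coefficients, not all `q_j` zero, between
consecutive base `b` digits `a_k` of `x` fails at least `c (log N)^2 / (log log N)^3` times up to
`N` (with `a_k - a_{k+1} = 0`: number of digit changes), and every expansion `x = ∑ g_k b^{-k}` with
bounded integers `g_k` has at least that many nonzero `g_k` with `1 ≤ k ≤ N`. -/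
theorem result (x : ℝ) (halg : IsAlgebraic ℚ x) (hirr : Irrational x) (b : ℕ) (hb : 2 ≤ b) :
    (∀ (m : ℕ) (q : ℕ → ℤ) (e : ℤ), (∃ j, j ≤ m ∧ q j ≠ 0) →
      ∃ c : ℝ, 0 < c ∧ ∃ N0 : ℕ, ∀ N : ℕ, N0 ≤ N →
        c * (Real.log N) ^ 2 / (Real.log (Real.log N)) ^ 3 ≤
          (((Icc 1 N).filter (fun k : ℕ =>
            ∑ j ∈ range (m + 1), q j * digit b x (k + j) ≠ e)).card : ℝ)) ∧
    (∀ (g : ℕ → ℤ) (M : ℤ), (∀ k, |g k| ≤ M) →
      HasSum (fun k : ℕ => (g k : ℝ) / (b : ℝ) ^ k) x →
      ∃ c : ℝ, 0 < c ∧ ∃ N0 : ℕ, ∀ N : ℕ, N0 ≤ N →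
        c * (Real.log N) ^ 2 / (Real.log (Real.log N)) ^ 3 ≤
          (((Icc 1 N).filter (fun k => g k ≠ 0)).card : ℝ)) :=
  ⟨fun m q e hq => Pool.Agent.W44.relations_nontrivial x halg hirr b hb m q hq e,
    fun g M hg hs => Pool.Agent.W44.expansions x halg hirr b hb g M hg hs⟩

end Pool.Agent.Results.MP_f2f914_nt.AllAlgebraicDigitRelations
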