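import Pool.Agent.W155.PerHam3

/-!
# The digits of algebraic numbers and eventually periodic sequences

Let `a_k = ⌊b^k x⌋ mod b` be the base-`b` digits of a real algebraic number `x`, a root of the
integer polynomial `P` of degree `d`.

1. For every integer combination `Σ_j q_j a_{k+j}` of neighbouring digits and every bound `B` there is
   `C > 0` such that for every integer sequence `v` with `|v_k| ≤ B` which has period `T` from the
   place `k₀` on, and whose value `Σ_{k ≥ 1} v_k b^{-k}`, multiplied by the leading coefficient of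
   `P`, is not in `ℤ[1/b]`, the number `h` of `1 ≤ k ≤ N` with `Σ_j q_j a_{k+j} ≠ v_k` satisfies
   `N ≤ (C b^(k₀+T) (1 + h))^d`.
2. If `x` is irrational and integral over `ℤ[1/b]` (the leading coefficient of `P` divides a power
   of `b`) there is `C > 0` such that for *every* eventually periodic integer sequence `v` (period `T`
   from `k₀` on) the number `h` of `1 ≤ k ≤ N` with `a_k ≠ v_k` satisfies
   `N ≤ (C b^(k₀+T) (1 + h))^d`.

No hypothesis is assumed.
-/

set_option autoImplicit false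

open Finset Polynomial

namespace Pool.Agent.Results.MP_f2f914_nt.PeriodicHamming

/-- the `k`-th digit of `x` after the point in base `b` -/
noncomputable def digit (b : ℕ) (x : ℝ) (k : ℕ) : ℤ := ⌊(b : ℝ) ^ k * x⌋ % (b : ℤ)

/-- The result. -/
theorem result :
    (∀ P : ℤ[X], 1 ≤ P.natDegree → ∀ x : ℝ, aeval x P = 0 → ∀ b : ℕ, 2 ≤ b →
      ∀ (m : ℕ) (q : ℕ → ℤ) (B : ℝ), ∃ C : ℝ, 0 < C ∧
        ∀ (v : ℕ → ℤ) (k₀ T : ℕ), 1 ≤ T → (∀ k, |(v k : ℝ)| ≤ B) →
          (∀ k, k₀ ≤ k → v (k + T) = v k) →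
          (∀ (n : ℕ) (z : ℤ), (b : ℝ) ^ n * (P.leadingCoeff : ℝ) *
            (∑' k : ℕ, (v (k + 1) : ℝ) / (b : ℝ) ^ (k + 1)) ≠ z) →
          ∀ N : ℕ, (N : ℝ) ≤ (C * (b : ℝ) ^ (k₀ + T) * (1 +
            (((Icc 1 N).filter (fun k : ℕ =>
              ∑ j ∈ range (m + 1), q j * digit b x (k + j) ≠ v k)).card : ℝ))) ^ P.natDegree) ∧
    (∀ P : ℤ[X], P ≠ 0 → ∀ x : ℝ, Irrational x → aeval x P = 0 → ∀ b : ℕ, 2 ≤ b →
      ∀ n₀ : ℕ, P.leadingCoeff ∣ (b : ℤ) ^ n₀ → ∃ C : ℝ, 0 < C ∧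
        ∀ (v : ℕ → ℤ) (k₀ T : ℕ), 1 ≤ T → (∀ k, k₀ ≤ k → v (k + T) = v k) →
          ∀ N : ℕ, (N : ℝ) ≤ (C * (b : ℝ) ^ (k₀ + T) * (1 +
            (((Icc 1 N).filter (fun k : ℕ => digit b x k ≠ v k)).card : ℝ))) ^ P.natDegree) := by
  refine ⟨?_, ?_⟩
  · intro P hd x hx b hb m q B
    obtain ⟨C, hC, h⟩ := Pool.Agent.W155.PerHam.relations P hd x hx b hb m q B
    refine ⟨C, hC, fun v k₀ T hT hB hp hv N => ?_⟩
    have := h v k₀ T hT hB hp (fun n z => by
      have h1 := hv n z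
      unfold Pool.Agent.W155.PerHam.tl
      simpa only [Nat.zero_add] using h1) N
    exact this
  · intro P hP x hirr hx b hb n₀ ha
    obtain ⟨C, hC, h⟩ := Pool.Agent.W155.PerHam.digits P hP x hirr hx b hb n₀ ha
    exact ⟨C, hC, fun v k₀ T hT hp N => h v k₀ T hT hp N⟩

end Pool.Agent.Results.MP_f2f914_nt.PeriodicHamming
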