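import Pool.Agent.W226.MP.Alg

/-!
# The words of digits of the multiples of an algebraic irrational number

Let `ξ` be a real algebraic irrational number, `b ≥ 2` and `δ > 0`. For all large `N` and all
`L ≤ ε N` there is a place `n` between `N` and `(1 + δ) N` at which the words of length `L` of the
multiples `m ξ` (and of `x + m ξ`, for every real `x`) are as well distributed as possible.
-/

set_option autoImplicit false

namespace Pool.Agent.Results.MP_f2f914_nt.WordsOfMultiples

open Finset Pool.Agent.W226.MP

open Classical in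
/-- Let `ξ` be a real algebraic irrational number and `b ≥ 2`. (1) For every `δ > 0` there are `ε > 0`
and `N₀` such that for all `N ≥ N₀` and all `L ≤ ε N` there is a good place `n` for the words of
length `L` of the multiples of `ξ` (see `GoodPlace`) with `N ≤ n ≤ (1 + δ) N`. (2) For every real `x`
and every set `W` of words of length `L`, the number of `m < b ^ L` such that all but finitely many of
the words of length `L` in the expansion of `x + m ξ` belong to `W` is at most `2 b |W|`. (3) In
particular, for every block `w` of `k` digits, the number of `m < b ^ L` such that `w` occurs only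
finitely often in `x + m ξ` is at most `2 b` times the number of words of length `L` in which `w` does
not occur. -/
theorem result (ξ : ℝ) (halg : IsAlgebraic ℚ ξ) (hirr : Irrational ξ) (b : ℕ) (hb : 2 ≤ b) :
    (∀ δ : ℝ, 0 < δ → ∃ ε : ℝ, 0 < ε ∧ ∃ N₀ : ℕ, ∀ N L : ℕ, N₀ ≤ N → (L : ℝ) ≤ ε * N →
      ∃ n : ℕ, N ≤ n ∧ (n : ℝ) ≤ (1 + δ) * N ∧ GoodPlace b ξ L n) ∧
    (∀ (L : ℕ) (W : Finset (Fin L → Fin b)) (x : ℝ),
      ((range (b ^ L)).filter (fun m : ℕ =>
        {p : ℕ | ∀ v ∈ W, ¬ OccursAt b L v (x + m * ξ) p}.Finite)).card ≤ 2 * b * W.card) ∧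
    (∀ (k L : ℕ) (w : Fin k → Fin b) (x : ℝ),
      ((range (b ^ L)).filter (fun m : ℕ =>
        {p : ℕ | OccursAt b k w (x + m * ξ) p}.Finite)).card
        ≤ 2 * b * (univ.filter (fun v : Fin L → Fin b => Avoids b k L w v)).card) :=
  ⟨fun δ hδ => place_alg ξ halg hirr b hb δ hδ, fun L W x => finite_words b L hb ξ hirr W x,
    fun k L w x => finite_occ b k L hb ξ hirr w x⟩

end Pool.Agent.Results.MP_f2f914_nt.WordsOfMultiples
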